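import Pool.Agent.QC.Loc.LocKTS

/-!
# Translation `shift z` and restriction `slice`: evaluation, derivatives, critical points
-/

namespace Pool.Agent.QC.Loc

open MvPolynomial Pool.Agent.QC

variable {n : ℕ}

/-- The point `x + z e_n`. -/
def sx (z : ℂ) (x : Fin (n + 1) → ℂ) : Fin (n + 1) → ℂ :=
  Fin.snoc (fun i : Fin n => x i.castSucc) (x (Fin.last n) + z)

@[simp] theorem sx_castSucc (z : ℂ) (x : Fin (n + 1) → ℂ) (i : Fin n) :
    sx z x i.castSucc = x i.castSucc := by
  rw [sx, Fin.snoc_castSucc]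

@[simp] theorem sx_last (z : ℂ) (x : Fin (n + 1) → ℂ) :
    sx z x (Fin.last n) = x (Fin.last n) + z := by
  rw [sx, Fin.snoc_last]

theorem sx_sx (z z' : ℂ) (x : Fin (n + 1) → ℂ) : sx z (sx z' x) = sx (z' + z) x := by
  funext i
  refine Fin.lastCases ?_ (fun i => ?_) i
  · rw [sx_last, sx_last, sx_last, add_assoc]
  · rw [sx_castSucc, sx_castSucc, sx_castSucc]

theorem sx_zero (x : Fin (n + 1) → ℂ) : sx 0 x = x := by
  funext i
  refine Fin.lastCases ?_ (fun i => ?_) i
  · rw [sx_last, add_zero]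
  · rw [sx_castSucc]

theorem sx_neg (z : ℂ) (x : Fin (n + 1) → ℂ) : sx z (sx (-z) x) = x := by
  rw [sx_sx, neg_add_cancel, sx_zero]

theorem sx_neg' (z : ℂ) (x : Fin (n + 1) → ℂ) : sx (-z) (sx z x) = x := by
  rw [sx_sx, add_neg_cancel, sx_zero]

@[simp] theorem shift_C (z c : ℂ) : shift z (C c : Pol (n + 1)) = C c := by
  rw [shift, aeval_C]; rfl

@[simp] theorem shift_X_castSucc (z : ℂ) (i : Fin n) :
    shift z (X i.castSucc : Pol (n + 1)) = X i.castSucc := by
  rw [shift, aeval_X, Fin.snoc_castSucc]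

@[simp] theorem shift_X_last (z : ℂ) :
    shift z (X (Fin.last n) : Pol (n + 1)) = X (Fin.last n) + C z := by
  rw [shift, aeval_X, Fin.snoc_last]

theorem eval_shift (z : ℂ) (x : Fin (n + 1) → ℂ) (P : Pol (n + 1)) :
    eval x (shift z P) = eval (sx z x) P := by
  induction P using MvPolynomial.induction_on with
  | C a => rw [shift_C, eval_C, eval_C]
  | add p q hp hq => rw [map_add, map_add, map_add, hp, hq]
  | mul_X p i hp =>
    rw [map_mul, map_mul, map_mul, hp, eval_X]
    congr 1
    refine Fin.lastCases ?_ (fun i => ?_) i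
    · rw [shift_X_last, map_add, eval_X, eval_C, sx_last]
    · rw [shift_X_castSucc, eval_X, sx_castSucc]

theorem pderiv_shift (z : ℂ) (i : Fin (n + 1)) (P : Pol (n + 1)) :
    pderiv i (shift z P) = shift z (pderiv i P) := by
  induction P using MvPolynomial.induction_on with
  | C a => rw [shift_C, pderiv_C, map_zero]
  | add p q hp hq => rw [map_add, map_add, map_add, map_add, hp, hq]
  | mul_X p j hp =>
    have h1 : pderiv i (shift z (X j : Pol (n + 1))) = shift z (pderiv i (X j)) := by
      refine Fin.lastCases ?_ (fun j => ?_) j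
      · rw [shift_X_last, map_add, pderiv_C, add_zero]
        by_cases h : Fin.last n = i
        · subst h; rw [pderiv_X_self, map_one]
        · rw [pderiv_X_of_ne h, map_zero]
      · rw [shift_X_castSucc]
        by_cases h : j.castSucc = i
        · subst h; rw [pderiv_X_self, map_one]
        · rw [pderiv_X_of_ne h, map_zero]
    rw [map_mul, pderiv_mul, pderiv_mul, hp, h1, map_add, map_mul, map_mul]

theorem mem_critF_shift {z : ℂ} {f : Pol (n + 1)} {x : Fin (n + 1) → ℂ} :
    x ∈ CritF (shift z f) ↔ sx z x ∈ CritF f := by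
  simp only [CritF, Set.mem_ofPred_eq, pderiv_shift, eval_shift]

theorem mem_singF_shift {z : ℂ} {f : Pol (n + 1)} {x : Fin (n + 1) → ℂ} :
    x ∈ SingF (shift z f) ↔ sx z x ∈ SingF f := by
  simp only [SingF, Set.mem_ofPred_eq, pderiv_shift, eval_shift]

theorem singF_shift_eq_empty {z : ℂ} {f : Pol (n + 1)} :
    SingF (shift z f) = ∅ ↔ SingF f = ∅ := by
  rw [Set.eq_empty_iff_forall_notMem, Set.eq_empty_iff_forall_notMem]
  constructor
  · intro h x hx
    refine h (sx (-z) x) (mem_singF_shift.2 ?_)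
    rwa [sx_neg]
  · intro h x hx
    exact h _ (mem_singF_shift.1 hx)

theorem nonDegC_shift {z : ℂ} {f : Pol (n + 1)} {x : Fin (n + 1) → ℂ} :
    NonDegC (shift z f) x ↔ NonDegC f (sx z x) := by
  have h : hess' (shift z f) x = hess' f (sx z x) := by
    ext i j
    simp only [hess', pderiv_shift, eval_shift]
  rw [NonDegC, NonDegC, h, pderiv_shift, eval_shift]

/-- critical points of the translate over `0` -/
theorem crit_shift_ne_zero {z : ℂ} {f : Pol (n + 1)} :
    (∀ v ∈ CritF (shift z f), v (Fin.last n) ≠ 0) ↔ z ∉ SigF f := by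
  constructor
  · rintro h ⟨x, hx, hxz⟩
    simp only at hxz
    refine h (sx (-z) x) (mem_critF_shift.2 (by rwa [sx_neg])) ?_
    rw [sx_last, hxz, add_neg_cancel]
  · intro h v hv hv0
    refine h ⟨sx z v, mem_critF_shift.1 hv, ?_⟩
    simp only [sx_last, hv0, zero_add]

theorem reg_shift_iff {z : ℂ} {f : Pol (n + 1)} :
    Reg (eV n) (shift z f) ↔ SingF f = ∅ ∧ z ∉ SigF f := by
  rw [reg_eV_iff, singF_shift_eq_empty, crit_shift_ne_zero]

theorem reg_e0_iff {m : ℕ} {f : Pol m} : Reg (e0 m) f ↔ SingF f = ∅ := by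
  rw [Set.eq_empty_iff_forall_notMem]
  constructor
  · intro h x hx
    refine h ⟨x, hx.1, fun i => ?_⟩
    rw [th_zero_pat (e := e0 m) rfl]
    exact hx.2 i
  · rintro h ⟨x, hx, hx'⟩
    refine h x ⟨hx, fun i => ?_⟩
    rw [← th_zero_pat (e := e0 m) rfl]
    exact hx' i

/-! ### slices -/

@[simp] theorem slice_C (c : ℂ) : slice (C c : Pol (n + 1)) = C c := by
  rw [slice, aeval_C]; rfl

@[simp] theorem slice_X_castSucc (i : Fin n) : slice (X i.castSucc : Pol (n + 1)) = X i := by
  rw [slice, aeval_X, Fin.snoc_castSucc]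

@[simp] theorem slice_X_last : slice (X (Fin.last n) : Pol (n + 1)) = 0 := by
  rw [slice, aeval_X, Fin.snoc_last]

theorem eval_slice (x : Fin n → ℂ) (P : Pol (n + 1)) :
    eval x (slice P) = eval (Fin.snoc x 0 : Fin (n + 1) → ℂ) P := by
  induction P using MvPolynomial.induction_on with
  | C a => rw [slice_C, eval_C, eval_C]
  | add p q hp hq => rw [map_add, map_add, map_add, hp, hq]
  | mul_X p i hp =>
    rw [map_mul, map_mul, map_mul, hp, eval_X]
    congr 1
    refine Fin.lastCases ?_ (fun i => ?_) i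
    · rw [slice_X_last, map_zero, Fin.snoc_last]
    · rw [slice_X_castSucc, eval_X, Fin.snoc_castSucc]

theorem pderiv_slice (i : Fin n) (P : Pol (n + 1)) :
    pderiv i (slice P) = slice (pderiv i.castSucc P) := by
  induction P using MvPolynomial.induction_on with
  | C a => rw [slice_C, pderiv_C, pderiv_C, map_zero]
  | add p q hp hq => rw [map_add, map_add, map_add, map_add, hp, hq]
  | mul_X p j hp =>
    have h1 : pderiv i (slice (X j : Pol (n + 1))) = slice (pderiv i.castSucc (X j)) := by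
      refine Fin.lastCases ?_ (fun j => ?_) j
      · rw [slice_X_last, map_zero, pderiv_X_of_ne (Fin.castSucc_lt_last i).ne', map_zero]
      · rw [slice_X_castSucc]
        by_cases h : j = i
        · subst h; rw [pderiv_X_self, pderiv_X_self, map_one]
        · rw [pderiv_X_of_ne h, pderiv_X_of_ne (fun h' => h (Fin.castSucc_injective n h')),
            map_zero]
    rw [map_mul, pderiv_mul, pderiv_mul, hp, h1, map_add, map_mul, map_mul]

theorem reg_slice_iff {f : Pol (n + 1)} :
    Reg (e0 n) (slice f) ↔ ∀ v ∈ CritF f, v (Fin.last n) ≠ 0 := by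
  rw [reg_e0_iff, Set.eq_empty_iff_forall_notMem]
  constructor
  · intro h v hv hv0
    have hv' : (Fin.snoc (fun i : Fin n => v i.castSucc) 0 : Fin (n + 1) → ℂ) = v := by
      funext i
      refine Fin.lastCases ?_ (fun i => ?_) i
      · rw [Fin.snoc_last, hv0]
      · rw [Fin.snoc_castSucc]
    refine h (fun i => v i.castSucc) ⟨?_, fun i => ?_⟩
    · rw [eval_slice, hv']; exact hv.1
    · rw [pderiv_slice, eval_slice, hv']; exact hv.2 i
  · intro h x hx
    refine h (Fin.snoc x 0) ⟨?_, fun i => ?_⟩ (by rw [Fin.snoc_last])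
    · rw [← eval_slice]; exact hx.1
    · rw [← eval_slice, ← pderiv_slice]; exact hx.2 i

theorem reg_slice_shift_iff {z : ℂ} {f : Pol (n + 1)} :
    Reg (e0 n) (slice (shift z f)) ↔ z ∉ SigF f := by
  rw [reg_slice_iff, crit_shift_ne_zero]

/-- The nondegenerate zero at a simple critical value, in shifted coordinates. -/
theorem nz_shift {z : ℂ} {f : Pol (n + 1)} {w : Fin (n + 1) → ℂ} (hs : SingF f = ∅)
    (hw : w ∈ CritF f) (hwz : w (Fin.last n) = z) (hn : NonDegC f w)
    (hu : ∀ x ∈ CritF f, x (Fin.last n) = z → x = w) : NZ (eV n) (shift z f) (sx (-z) w) := by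
  refine nz_of_crit ?_ ?_ ?_ (singF_shift_eq_empty.2 hs) ?_
  · rw [sx_last, hwz, add_neg_cancel]
  · rw [mem_critF_shift, sx_neg]; exact hw
  · rw [nonDegC_shift, sx_neg]; exact hn
  · intro v hv hv0
    have h1 := hu _ (mem_critF_shift.1 hv) (by rw [sx_last, hv0, zero_add])
    rw [← h1, sx_neg']

end Pool.Agent.QC.Loc
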