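import Pool.Agent.QC.Loc.Local

/-!
# Section 2.5 (LOC): kernel, transversality and trace at a nondegenerate zero

General pattern; then the pattern `eV` (last variable logarithmic), point over `z = 0`.
-/

namespace Pool.Agent.QC.Loc

open MvPolynomial Pool.Agent.QC

variable {m : ℕ} {e : Fin m → ℕ} {f : Pol m} {w : Fin m → ℂ}

theorem e_mul_eval_th (he : ∀ i, e i ≤ 1) (h : NZ e f w) (g : Pol m) (j : Fin m) :
    (e j : ℂ) * eval w (th e j g) = 0 := by
  rcases pat he j with hj | hj
  · rw [hj, Nat.cast_zero, zero_mul]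
  · rw [eval_th_one h hj, mul_zero]

/-- The computation behind transversality and trace: if `E1 (f P) = γ P(w)` and
`E1 (D_i P) = -c (D_i^g P) (w)` then `a γ + (γ + c g(w)) |S| / 2 = 0`. -/
theorem loc_aux (he : ∀ i, e i ≤ 1) (h : NZ e f w) {a c γ : ℂ} {g : Pol m} {E1 : Fnl m}
    (h1 : ∀ P, E1 (f * P) = γ * eval w P)
    (h2 : ∀ i P, E1 (Dop e (a - 1) f i P) = -(c * eval w (Dop e (a - 1) g i P))) :
    a * γ + (γ + c * eval w g) * ((Fintype.card {i // e i = 0} : ℂ) / 2) = 0 := by
  obtain ⟨χ, P, hχ, hP⟩ := exists_data h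
  have h3 : ∀ j, a * E1 (th e j f * P j) =
      -((γ + c * eval w g) * eval w (th e j (P j))) := by
    intro j
    have h4 : Dop e (a - 1) f j (P j) = a • (th e j f * P j) + f * th e j (P j) := by
      rw [Dop, smul_eq_C_mul]; ring_nf
    have h5 : eval w (Dop e (a - 1) g j (P j)) =
        a * eval w (th e j g) * eval w (P j) + eval w g * eval w (th e j (P j)) := by
      rw [Dop]
      simp only [map_add, map_mul, eval_C, sub_add_cancel]
    have h6 := h2 j (P j)
    rw [h4, map_add, map_smul, smul_eq_mul, h1, h5, data_val he h hχ hP] at h6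
    have h7 := e_mul_eval_th he h g j
    linear_combination h6 - c * a * h7
  have h4 : a * E1 (f * χ) = ∑ j, a * E1 (th e j f * P j) := by
    rw [mul_comm f χ, hP, map_sum, Finset.mul_sum]
    refine Finset.sum_congr rfl fun j _ => ?_
    rw [mul_comm (P j)]
  rw [h1, hχ, Finset.sum_congr rfl fun j _ => h3 j, Finset.sum_neg_distrib, ← Finset.mul_sum,
    data_trace he h hχ hP] at h4
  linear_combination h4

/-- (K): the kernel of `mu`. -/
theorem loc_K {a : ℂ} (ha : a ≠ 0) (h : NZ e f w) {y : Fnl m} (hy : y ∈ Zs e (a - 1) f)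
    (hf : ∀ P, y (f * P) = 0) : ∃ t : ℂ, ∀ P, y P = t * eval w P := by
  refine ⟨y 1, fun P => ?_⟩
  conv_lhs => rw [ker_mu ha h hy hf]
  rw [LinearMap.smul_apply, evL_apply, smul_eq_mul]

/-- (T): transversality. -/
theorem loc_T (he : ∀ i, e i ≤ 1) (h : NZ e f w) {a : ℂ} (ha : a ≠ 0) {g : Pol m}
    (hg : eval w g ≠ 0) : ¬ ∃ E1 : Fnl m, (∀ P, E1 (f * P) = -(eval w (g * P))) ∧
      ∀ i P, E1 (Dop e (a - 1) f i P) = -(eval w (Dop e (a - 1) g i P)) := by
  rintro ⟨E1, h1, h2⟩
  have h3 := loc_aux (a := a) (c := 1) (γ := -eval w g) (g := g) (E1 := E1) he h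
    (fun P => by rw [h1, map_mul, neg_mul]) (fun i P => by rw [h2, one_mul])
  rw [one_mul, neg_add_cancel, zero_mul, add_zero, mul_neg, neg_eq_zero] at h3
  exact (mul_ne_zero ha hg) h3

/-- (S): the trace of the residue. -/
theorem loc_S (he : ∀ i, e i ≤ 1) (h : NZ e f w) {a c : ℂ} {g : Pol m} {E1 : Fnl m}
    (h1 : ∀ P, eval w P = c * eval w (g * P) + E1 (f * P))
    (h2 : ∀ i P, E1 (Dop e (a - 1) f i P) = -(c * eval w (Dop e (a - 1) g i P))) :
    a * c * eval w g = a + (Fintype.card {i // e i = 0} : ℂ) / 2 := by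
  have h3 := loc_aux (a := a) (c := c) (γ := 1 - c * eval w g) (g := g) (E1 := E1) he h
    (fun P => by
      have := h1 P
      rw [map_mul] at this
      linear_combination -this) h2
  linear_combination -h3

/-! ### The pattern `eV` -/

section V

variable {n : ℕ} {f : Pol (n + 1)} {w : Fin (n + 1) → ℂ}

theorem eV_le (i : Fin (n + 1)) : eV n i ≤ 1 := by
  unfold eV; split_ifs <;> omega

theorem eV_castSucc (i : Fin n) : eV n i.castSucc = 0 := by
  unfold eV; rw [if_neg (Fin.castSucc_lt_last i).ne]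

theorem eV_last : eV n (Fin.last n) = 1 := by
  unfold eV; rw [if_pos rfl]

theorem card_eV : Fintype.card {i // eV n i = 0} = n := by
  have h1 : ∀ i : Fin (n + 1), eV n i = 0 ↔ i ≠ Fin.last n := by
    intro i
    unfold eV
    by_cases h : i = Fin.last n
    · rw [if_pos h]; simp [h]
    · rw [if_neg h]; simp [h]
  rw [Fintype.card_congr (Equiv.subtypeEquivRight h1), Fintype.card_subtype_compl]
  simp

theorem th_eV_castSucc (i : Fin n) (P : Pol (n + 1)) :
    th (eV n) i.castSucc P = pderiv i.castSucc P := th_zero_pat (eV_castSucc i) P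

theorem th_eV_last (P : Pol (n + 1)) :
    th (eV n) (Fin.last n) P = X (Fin.last n) * pderiv (Fin.last n) P := th_one_pat eV_last P

/-- A nondegenerate critical point `w` of `x_n` on `f = 0` over `z = 0`. -/
theorem nz_eV (hw : w (Fin.last n) = 0) (hf : eval w f = 0)
    (hd : ∀ i : Fin n, eval w (pderiv i.castSucc f) = 0) (hH : (hess' f w).det ≠ 0)
    (hl : eval w (pderiv (Fin.last n) f) ≠ 0)
    (hu : ∀ v, eval v f = 0 → (∀ i, eval v (th (eV n) i f) = 0) → v = w) : NZ (eV n) f w where
  f0 := hf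
  w0 := by
    intro i hi
    by_cases h : i = Fin.last n
    · rw [h, hw]
    · unfold eV at hi
      rw [if_neg h] at hi
      exact absurd hi (by norm_num)
  th0 := by
    intro i
    refine Fin.lastCases ?_ (fun i => ?_) i
    · rw [th_eV_last, map_mul, eval_X, hw, zero_mul]
    · rw [th_eV_castSucc]; exact hd i
  det := by
    intro h0
    obtain ⟨v, hv, hv0⟩ := Matrix.exists_mulVec_eq_zero_iff.2 h0
    apply hv
    have hlast : v (Fin.last n) = 0 := by
      have h1 := congrFun hv0 (Fin.last n)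
      rw [Matrix.mulVec, dotProduct, Pi.zero_apply, Fin.sum_univ_castSucc] at h1
      have h2 : ∀ j : Fin n, jac (eV n) f w (Fin.last n) j.castSucc = 0 := by
        intro j
        rw [jac, th_eV_last, pderiv_mul, pderiv_X_of_ne (Fin.castSucc_lt_last j).ne', zero_mul,
          zero_add, map_mul, eval_X, hw, zero_mul]
      have h3 : jac (eV n) f w (Fin.last n) (Fin.last n) = eval w (pderiv (Fin.last n) f) := by
        rw [jac, th_eV_last, pderiv_mul, pderiv_X_self, one_mul, map_add, map_mul, eval_X, hw,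
          zero_mul, add_zero]
      rw [h3, Finset.sum_eq_zero fun j _ => by rw [h2 j, zero_mul], zero_add] at h1
      exact (mul_eq_zero.1 h1).resolve_left hl
    have h4 : Matrix.mulVec (hess' f w) (fun j => v j.castSucc) = 0 := by
      funext i
      have h1 := congrFun hv0 i.castSucc
      rw [Matrix.mulVec, dotProduct, Pi.zero_apply, Fin.sum_univ_castSucc, hlast, mul_zero,
        add_zero] at h1
      rw [Matrix.mulVec, dotProduct, Pi.zero_apply, ← h1]
      refine Finset.sum_congr rfl fun j _ => ?_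
      rw [jac, th_eV_castSucc, hess', pderiv_comm]
    have h5 := Matrix.eq_zero_of_mulVec_eq_zero hH h4
    funext i
    refine Fin.lastCases ?_ (fun i => ?_) i
    · exact hlast
    · exact congrFun h5 i
  uniq := hu

/-- The common zeros of the row for the pattern `eV` are the critical points over `0` and the
singular points. -/
theorem row_zero_eV {v : Fin (n + 1) → ℂ} (h0 : eval v f = 0)
    (h1 : ∀ i, eval v (th (eV n) i f) = 0) : v ∈ CritF f ∧ (v (Fin.last n) = 0 ∨ v ∈ SingF f) := by
  have h2 : ∀ i : Fin n, eval v (pderiv i.castSucc f) = 0 := by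
    intro i
    have := h1 i.castSucc
    rwa [th_eV_castSucc] at this
  have h3 := h1 (Fin.last n)
  rw [th_eV_last, map_mul, eval_X, mul_eq_zero] at h3
  refine ⟨⟨h0, h2⟩, h3.imp id fun h4 => ⟨h0, fun i => ?_⟩⟩
  refine Fin.lastCases h4 (fun i => h2 i) i

theorem nz_of_crit (hw : w (Fin.last n) = 0) (hf : w ∈ CritF f) (hn : NonDegC f w)
    (hs : SingF f = ∅) (hu : ∀ v ∈ CritF f, v (Fin.last n) = 0 → v = w) : NZ (eV n) f w := by
  refine nz_eV hw hf.1 hf.2 hn.1 hn.2 fun v h0 h1 => ?_
  obtain ⟨h2, h3⟩ := row_zero_eV h0 h1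
  rcases h3 with h3 | h3
  · exact hu v h2 h3
  · rw [hs] at h3
    exact absurd h3 (Set.notMem_empty v)

/-- regularity for the pattern `eV` -/
theorem reg_eV_iff : Reg (eV n) f ↔ SingF f = ∅ ∧ ∀ v ∈ CritF f, v (Fin.last n) ≠ 0 := by
  constructor
  · intro h
    constructor
    · rw [Set.eq_empty_iff_forall_notMem]
      intro v hv
      refine h ⟨v, hv.1, fun i => ?_⟩
      rw [th, map_mul, hv.2 i, mul_zero]
    · intro v hv hvl
      refine h ⟨v, hv.1, fun i => ?_⟩
      refine Fin.lastCases ?_ (fun i => ?_) i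
      · rw [th_eV_last, map_mul, eval_X, hvl, zero_mul]
      · rw [th_eV_castSucc]; exact hv.2 i
  · rintro ⟨h1, h2⟩ ⟨v, h3, h4⟩
    obtain ⟨h5, h6⟩ := row_zero_eV h3 h4
    rcases h6 with h6 | h6
    · exact h2 v h5 h6
    · rw [h1] at h6
      exact absurd h6 (Set.notMem_empty v)

/-- (S) for the pattern `eV`: the exponent is `a + n / 2`. -/
theorem loc_S_eV (h : NZ (eV n) f w) {a c : ℂ} {g : Pol (n + 1)} {E1 : Fnl (n + 1)}
    (h1 : ∀ P, eval w P = c * eval w (g * P) + E1 (f * P))
    (h2 : ∀ i P, E1 (Dop (eV n) (a - 1) f i P) = -(c * eval w (Dop (eV n) (a - 1) g i P))) :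
    a * c * eval w g = a + (n : ℂ) / 2 := by
  rw [loc_S eV_le h h1 h2, card_eV]

end V

end Pool.Agent.QC.Loc
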