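import Pool.Agent.QC.FRed
import Pool.Agent.QC.Loc.Shift

/-!
# The three families: coefficient vectors, top forms, smoothness
-/

namespace Pool.Agent.QC.Loc

open MvPolynomial Pool.Agent.QC

/-! ### Coefficient vectors and top forms -/

section Top

variable {m : ℕ}

theorem pol_coeffs_le {D : ℕ} {f : Pol m} (hle : LeZ f D) :
    pol (fun d : Fin m → Fin (D + 1) => coeff (Finsupp.equivFunOnFinite.symm
      (fun i => ((d i : Fin (D + 1)) : ℕ))) f) = f := by
  classical
  change pol (fun t => coeff (ofIdx t) f) = f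
  ext s
  rw [pol_eq, coeff_sum]
  by_cases hs : ∀ i, s i < D + 1
  · have h1 : ofIdx (fun i => (⟨s i, hs i⟩ : Fin (D + 1))) = s := by
      ext i
      simp [ofIdx]
    rw [Finset.sum_eq_single (fun i => (⟨s i, hs i⟩ : Fin (D + 1)))]
    · rw [h1, coeff_monomial, if_pos rfl]
    · intro t _ ht
      rw [coeff_monomial, if_neg]
      intro h2
      exact ht (ofIdx_inj (h2.trans h1.symm))
    · intro h2
      exact absurd (Finset.mem_univ _) h2
  · push Not at hs
    obtain ⟨i, hi⟩ := hs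
    have h1 : coeff s f = 0 := by
      by_contra h2
      have h3 := hle s h2
      have h4 : s i ≤ s.degree := by
        rw [Finsupp.degree_eq_sum]
        exact Finset.single_le_sum (fun _ _ => Nat.zero_le _) (Finset.mem_univ i)
      omega
    rw [h1]
    refine Finset.sum_eq_zero (fun t _ => ?_)
    rw [coeff_monomial, if_neg]
    intro h2
    have := DFunLike.congr_fun h2 i
    simp only [ofIdx, Finsupp.equivFunOnFinite_symm_apply_apply] at this
    have := (t i).2
    omega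

theorem leZ_of_topF {D : ℕ} {c : Fin m → ℂ} {f : Pol m} (h : TopF D c f) : LeZ f D := by
  obtain ⟨g, hfg, hg⟩ := TopF.decomp h
  rw [hfg]
  exact (homZ_topP D c).le.add (hg.mono (by omega))

theorem pol_coeffs {D : ℕ} {c : Fin m → ℂ} {f : Pol m} (h : TopF D c f) :
    pol (fun d : Fin m → Fin (D + 1) => coeff (Finsupp.equivFunOnFinite.symm
      (fun i => ((d i : Fin (D + 1)) : ℕ))) f) = f :=
  pol_coeffs_le (leZ_of_topF h)

theorem totalDegree_lt_of_leZ {P : Pol m} {D : ℕ} (hD : 1 ≤ D) (h : LeZ P ((D : ℤ) - 1)) :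
    P.totalDegree < D := by
  rw [totalDegree, Finset.sup_lt_iff (by simpa using (by omega : 0 < D))]
  intro s hs
  have h1 := h s (mem_support_iff.1 hs)
  rw [Finsupp.degree_eq_sum] at h1
  rw [Finsupp.sum_fintype _ _ (fun _ => rfl)]
  have h2 : ((∑ i, s i : ℕ) : ℤ) ≤ D - 1 := h1
  omega

theorem leZ_C (c : ℂ) : LeZ (C c : Pol m) 0 := (homZ_C c).le

theorem leZ_one : LeZ (1 : Pol m) 0 := by
  rw [← C_1]; exact leZ_C 1

theorem leZ_X (i : Fin m) : LeZ (X i : Pol m) 1 := by
  have := (homZ_X_pow i 1).le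
  rwa [pow_one, Nat.cast_one] at this

theorem leZ_prod {ι : Type*} (t : Finset ι) (P : ι → Pol m) {k : ℤ} (h : ∀ i ∈ t, LeZ (P i) k) :
    LeZ (∏ i ∈ t, P i) (t.card * k) := by
  classical
  induction t using Finset.induction_on with
  | empty => simpa using leZ_one
  | insert i s hi ih =>
    rw [Finset.prod_insert hi, Finset.card_insert_of_notMem hi]
    have h1 := (h i (Finset.mem_insert_self i s)).mul
      (ih fun j hj => h j (Finset.mem_insert_of_mem hj))
    refine h1.mono ?_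
    push_cast
    linarith

theorem leZ_pow {P : Pol m} {k : ℤ} (h : LeZ P k) (r : ℕ) : LeZ (P ^ r) (r * k) := by
  have := leZ_prod (Finset.range r) (fun _ => P) (k := k) (fun _ _ => h)
  rwa [Finset.prod_const, Finset.card_range] at this

end Top

section Fam

variable {n l m : ℕ}

/-- an algebra map which sends the variables to polynomials of degree at most one -/
theorem leZ_qpol (φ : Pol (n + 1) →ₐ[ℂ] Pol m) (hφ : ∀ i, LeZ (φ (X i)) 1) (p : QPc (n + 1)) :
    LeZ (φ (qpol p)) 2 := by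
  have hC : ∀ c : ℂ, φ (C c) = C c := fun c => by
    rw [← algebraMap_eq, φ.commutes, algebraMap_eq]
  rw [qpol, map_add, map_add, map_sum, map_sum, hC]
  refine ((LeZ.sum _ _ fun i _ => ?_).add (LeZ.sum _ _ fun i _ => ?_)).add
    ((leZ_C _).mono (by norm_num))
  · rw [map_sum]
    refine LeZ.sum _ _ fun j _ => ?_
    rw [map_mul, map_mul, hC]
    exact (((leZ_C _).mul (hφ i)).mul (hφ j)).mono (by norm_num)
  · rw [map_mul, hC]
    exact ((leZ_C _).mul (hφ i)).mono (by norm_num)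

theorem leZ_prodT (φ : Pol (n + 1) →ₐ[ℂ] Pol m) (hφ : ∀ i, LeZ (φ (X i)) 1) (q : Tup n l) :
    LeZ (φ (prodT q)) ((DD l : ℕ) - 2 : ℤ) := by
  rw [prodT, map_prod]
  refine (leZ_prod Finset.univ _ fun m _ => leZ_qpol φ hφ (q m)).mono ?_
  rw [Finset.card_univ, Fintype.card_fin, DD]
  push_cast
  linarith

theorem leZ_f0 (φ : Pol (n + 1) →ₐ[ℂ] Pol m) (hφ : ∀ i, LeZ (φ (X i)) 1) (q : Tup n l) :
    LeZ (φ (f0 q)) ((DD l : ℕ) - 1 : ℤ) := by
  rw [f0, map_sub, map_one]
  refine ((leZ_prodT φ hφ q).mono (by linarith)).sub (leZ_one.mono ?_)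
  rw [DD]; push_cast; linarith

theorem leZ_X_add_pow_sub (i : Fin m) (z : ℂ) (r : ℕ) :
    LeZ ((X i + C z : Pol m) ^ r - X i ^ r) ((r : ℤ) - 1) := by
  induction r with
  | zero => rw [pow_zero, pow_zero, sub_self]; exact leZ_zero _
  | succ r ih =>
    have h1 : (X i + C z : Pol m) ^ (r + 1) - X i ^ (r + 1) =
        (X i + C z) * ((X i + C z) ^ r - X i ^ r) + C z * X i ^ r := by ring
    rw [h1]
    refine LeZ.add ?_ ?_
    · have h2 : LeZ (X i + C z : Pol m) 1 := (leZ_X i).add ((leZ_C z).mono (by norm_num))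
      exact (h2.mul ih).mono (by push_cast; linarith)
    · exact ((leZ_C z).mul (homZ_X_pow i r).le).mono (by push_cast; linarith)

theorem leZ_shift_X (z : ℂ) (i : Fin (n + 1)) : LeZ (shift z (X i : Pol (n + 1))) 1 := by
  refine Fin.lastCases ?_ (fun i => ?_) i
  · rw [shift_X_last]
    exact (leZ_X _).add ((leZ_C z).mono (by norm_num))
  · rw [shift_X_castSucc]; exact leZ_X _

theorem leZ_slice_shift_X (z : ℂ) (i : Fin (n + 1)) :
    LeZ ((slice.comp (shift z)) (X i : Pol (n + 1))) 1 := by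
  rw [AlgHom.comp_apply]
  refine Fin.lastCases ?_ (fun i => ?_) i
  · rw [shift_X_last, map_add, slice_X_last, slice_C, zero_add]
    exact (leZ_C z).mono (by norm_num)
  · rw [shift_X_castSucc, slice_X_castSucc]; exact leZ_X _

/-- the coefficients of the top form -/
noncomputable def cV (n : ℕ) (en eta : ℝ) : Fin (n + 1) → ℂ :=
  Fin.snoc (fun _ : Fin n => ((eta : ℝ) : ℂ)) ((eta * en : ℝ) : ℂ)

theorem cV_ne {en eta : ℝ} (h1 : en ≠ 0) (h2 : eta ≠ 0) (i : Fin (n + 1)) : cV n en eta i ≠ 0 := by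
  refine Fin.lastCases ?_ (fun i => ?_) i
  · rw [cV, Fin.snoc_last]
    exact_mod_cast mul_ne_zero h2 h1
  · rw [cV, Fin.snoc_castSucc]
    exact_mod_cast h2

theorem sum_cV (en eta : ℝ) :
    ∑ i, C (cV n en eta i) * X i ^ DD l = C ((eta : ℝ) : ℂ) * (Eform l en : Pol (n + 1)) := by
  rw [Fin.sum_univ_castSucc, Eform, mul_add, Finset.mul_sum]
  refine congrArg₂ (· + ·) (Finset.sum_congr rfl fun i _ => ?_) ?_
  · rw [cV, Fin.snoc_castSucc]
  · rw [cV, Fin.snoc_last, ← mul_assoc, ← C_mul]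
    push_cast
    rfl

theorem one_le_DD : 1 ≤ DD l := by unfold DD; omega

theorem two_le_DD : 2 ≤ DD l := by unfold DD; omega

theorem topF_fpol {en eta : ℝ} (h1 : en ≠ 0) (h2 : eta ≠ 0) (q : Tup n l) :
    TopF (DD l) (cV n en eta) (fpol en eta q) := by
  refine ⟨cV_ne h1 h2, ?_⟩
  have h3 : fpol en eta q + ∑ i, C (cV n en eta i) * X i ^ DD l = f0 q := by
    rw [sum_cV, fpol, sub_add_cancel]
  rw [h3]
  have := leZ_f0 (AlgHom.id ℂ (Pol (n + 1))) (fun i => leZ_X i) q
  exact totalDegree_lt_of_leZ one_le_DD this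

theorem topF_shift {en eta : ℝ} (h1 : en ≠ 0) (h2 : eta ≠ 0) (z : ℂ) (q : Tup n l) :
    TopF (DD l) (cV n en eta) (shift z (fpol en eta q)) := by
  refine ⟨cV_ne h1 h2, ?_⟩
  have h3 : shift z (fpol en eta q) + ∑ i, C (cV n en eta i) * X i ^ DD l =
      shift z (f0 q) - C ((eta * en : ℝ) : ℂ) *
        ((X (Fin.last n) + C z) ^ DD l - X (Fin.last n) ^ DD l) := by
    rw [sum_cV, fpol, Eform, map_sub, map_mul, map_add, map_sum, map_mul, map_pow, shift_X_last,
      shift_C, shift_C]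
    have h4 : ∑ i : Fin n, shift z (X i.castSucc ^ DD l : Pol (n + 1)) =
        ∑ i : Fin n, X i.castSucc ^ DD l :=
      Finset.sum_congr rfl fun i _ => by rw [map_pow, shift_X_castSucc]
    rw [h4]
    push_cast
    rw [C_mul]
    ring
  rw [h3]
  refine totalDegree_lt_of_leZ one_le_DD ((leZ_f0 (shift z) (leZ_shift_X z) q).sub ?_)
  exact ((leZ_C _).mul (leZ_X_add_pow_sub _ z (DD l))).mono (by linarith)

theorem topF_slice {en eta : ℝ} (h2 : eta ≠ 0) (z : ℂ) (q : Tup n l) :
    TopF (DD l) (fun _ : Fin n => ((eta : ℝ) : ℂ)) (slice (shift z (fpol en eta q))) := by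
  refine ⟨fun _ => (by exact_mod_cast h2 : ((eta : ℝ) : ℂ) ≠ 0), ?_⟩
  have h3 : slice (shift z (fpol en eta q)) + ∑ i : Fin n, C ((eta : ℝ) : ℂ) * X i ^ DD l =
      (slice.comp (shift z)) (f0 q) - C ((eta * en : ℝ) * z ^ DD l : ℂ) := by
    rw [AlgHom.comp_apply, fpol, Eform]
    simp only [map_sub, map_mul, map_add, map_sum, map_pow, shift_X_last, shift_X_castSucc,
      shift_C, slice_C, slice_X_last, slice_X_castSucc, zero_add]
    rw [← Finset.mul_sum]
    push_cast
    simp only [C_mul]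
    ring
  rw [h3]
  refine totalDegree_lt_of_leZ one_le_DD
    ((leZ_f0 (slice.comp (shift z)) (leZ_slice_shift_X z) q).sub ((leZ_C _).mono ?_))
  have := one_le_DD (l := l)
  omega

theorem pol_FZ' {en eta : ℝ} (h1 : en ≠ 0) (h2 : eta ≠ 0) (q : Tup n l) :
    pol (FZ en eta q) = fpol en eta q :=
  pol_coeffs (topF_fpol h1 h2 q)

theorem pol_FV' {en eta : ℝ} (h1 : en ≠ 0) (h2 : eta ≠ 0) (p : Tup n l × ℂ) :
    pol (FV en eta p) = shift p.2 (fpol en eta p.1) :=
  pol_coeffs (topF_shift h1 h2 p.2 p.1)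

theorem pol_FS' {en eta : ℝ} (h2 : eta ≠ 0) (p : Tup n l × ℂ) :
    pol (FS en eta p) = slice (shift p.2 (fpol en eta p.1)) :=
  pol_coeffs (topF_slice h2 p.2 p.1)

end Fam

/-! ### Smooth families of polynomials -/

section CD

variable {E : Type*} [NormedAddCommGroup E] [NormedSpace ℂ E] {m : ℕ}

/-- all coefficients are smooth -/
def CDP (G : E → Pol m) : Prop := ∀ s, ContDiff ℂ ⊤ fun p => coeff s (G p)

theorem CDP.add {G H : E → Pol m} (hG : CDP G) (hH : CDP H) : CDP fun p => G p + H p := by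
  intro s
  simp only [coeff_add]
  exact (hG s).add (hH s)

theorem CDP.sub {G H : E → Pol m} (hG : CDP G) (hH : CDP H) : CDP fun p => G p - H p := by
  intro s
  simp only [coeff_sub]
  exact (hG s).sub (hH s)

theorem CDP.mul {G H : E → Pol m} (hG : CDP G) (hH : CDP H) : CDP fun p => G p * H p := by
  classical
  intro s
  simp only [coeff_mul]
  exact ContDiff.sum fun x _ => (hG _).mul (hH _)

theorem cdp_const (P : Pol m) : CDP fun _ : E => P := fun _ => contDiff_const

theorem cdp_C {g : E → ℂ} (hg : ContDiff ℂ ⊤ g) : CDP fun p => (C (g p) : Pol m) := by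
  classical
  intro s
  simp only [coeff_C]
  by_cases h : 0 = s
  · simp only [if_pos h]; exact hg
  · simp only [if_neg h]; exact contDiff_const

theorem CDP.sum {ι : Type*} (t : Finset ι) {G : ι → E → Pol m} (h : ∀ i ∈ t, CDP (G i)) :
    CDP fun p => ∑ i ∈ t, G i p := by
  intro s
  simp only [coeff_sum]
  exact ContDiff.sum fun i hi => h i hi s

theorem CDP.prod {ι : Type*} (t : Finset ι) {G : ι → E → Pol m} (h : ∀ i ∈ t, CDP (G i)) :
    CDP fun p => ∏ i ∈ t, G i p := by
  classical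
  induction t using Finset.induction_on with
  | empty => simpa using cdp_const (1 : Pol m)
  | insert i s hi ih =>
    simp only [Finset.prod_insert hi]
    exact (h i (Finset.mem_insert_self i s)).mul
      (ih fun j hj => h j (Finset.mem_insert_of_mem hj))

theorem CDP.pow {G : E → Pol m} (h : CDP G) (r : ℕ) : CDP fun p => G p ^ r := by
  have := CDP.prod (Finset.range r) (G := fun _ => G) fun _ _ => h
  simpa only [Finset.prod_const, Finset.card_range] using this

end CD

section FamCD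

variable {n l m : ℕ} {E : Type*} [NormedAddCommGroup E] [NormedSpace ℂ E]

theorem cdp_qpol {φ : E → (Pol (n + 1) →ₐ[ℂ] Pol m)} (hφ : ∀ i, CDP fun p => φ p (X i))
    {q : E → QPc (n + 1)} (hq : ContDiff ℂ ⊤ q) : CDP fun p => φ p (qpol (q p)) := by
  have hC : ∀ p (c : ℂ), φ p (C c) = C c := fun p c => by
    rw [← algebraMap_eq, (φ p).commutes, algebraMap_eq]
  simp only [qpol, map_add, map_sum, map_mul, hC]
  have h1 : ∀ i j, ContDiff ℂ ⊤ fun p => (q p).1 i j := by
    intro i j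
    exact (contDiff_pi.1 ((contDiff_pi.1 (contDiff_fst.comp hq)) i)) j
  have h2 : ∀ i, ContDiff ℂ ⊤ fun p => (q p).2.1 i := by
    intro i
    exact (contDiff_pi.1 (contDiff_fst.comp (contDiff_snd.comp hq))) i
  have h3 : ContDiff ℂ ⊤ fun p => (q p).2.2 := contDiff_snd.comp (contDiff_snd.comp hq)
  exact ((CDP.sum _ fun i _ => CDP.sum _ fun j _ => ((cdp_C (h1 i j)).mul (hφ i)).mul (hφ j)).add
    (CDP.sum _ fun i _ => (cdp_C (h2 i)).mul (hφ i))).add (cdp_C h3)

theorem cdp_fpol {φ : E → (Pol (n + 1) →ₐ[ℂ] Pol m)} (hφ : ∀ i, CDP fun p => φ p (X i))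
    {q : E → Tup n l} (hq : ContDiff ℂ ⊤ q) (en eta : ℝ) :
    CDP fun p => φ p (fpol en eta (q p)) := by
  have hC : ∀ p (c : ℂ), φ p (C c) = C c := fun p c => by
    rw [← algebraMap_eq, (φ p).commutes, algebraMap_eq]
  simp only [fpol, f0, prodT, Eform, map_sub, map_mul, map_add, map_sum, map_prod, map_pow, hC,
    map_one]
  have h1 : ∀ m, ContDiff ℂ ⊤ fun p => q p m := fun m => (contDiff_pi.1 hq) m
  exact ((CDP.prod _ fun m _ => cdp_qpol hφ (h1 m)).sub (cdp_const 1)).sub
    ((cdp_const _).mul ((CDP.sum _ fun i _ => (hφ _).pow _).add ((cdp_const _).mul ((hφ _).pow _))))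

theorem contDiff_coeffs {G : E → Pol m} (h : CDP G) (D : ℕ) :
    ContDiff ℂ ⊤ (fun p : E => (fun d => coeff (Finsupp.equivFunOnFinite.symm
      (fun i => ((d i : Fin (D + 1)) : ℕ))) (G p) : Cf m D)) :=
  contDiff_pi.2 fun _ => h _

theorem contDiff_FZ (en eta : ℝ) : ContDiff ℂ ⊤ (FZ (n := n) (l := l) en eta) :=
  contDiff_coeffs (cdp_fpol (φ := fun _ => AlgHom.id ℂ _) (fun _ => cdp_const _) contDiff_id
    en eta) _

theorem cdp_shift_X (i : Fin (n + 1)) :
    CDP fun p : Tup n l × ℂ => shift p.2 (X i : Pol (n + 1)) := by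
  refine Fin.lastCases ?_ (fun i => ?_) i
  · simp only [shift_X_last]
    exact (cdp_const _).add (cdp_C contDiff_snd)
  · simp only [shift_X_castSucc]
    exact cdp_const _

theorem cdp_slice_shift_X (i : Fin (n + 1)) :
    CDP fun p : Tup n l × ℂ => (slice.comp (shift p.2)) (X i : Pol (n + 1)) := by
  simp only [AlgHom.comp_apply]
  refine Fin.lastCases ?_ (fun i => ?_) i
  · simp only [shift_X_last, map_add, slice_X_last, slice_C]
    exact (cdp_const _).add (cdp_C contDiff_snd)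
  · simp only [shift_X_castSucc, slice_X_castSucc]
    exact cdp_const _

theorem contDiff_FV (en eta : ℝ) : ContDiff ℂ ⊤ (FV (n := n) (l := l) en eta) :=
  contDiff_coeffs (cdp_fpol (φ := fun p : Tup n l × ℂ => shift p.2) cdp_shift_X contDiff_fst
    en eta) _

theorem contDiff_FS (en eta : ℝ) : ContDiff ℂ ⊤ (FS (n := n) (l := l) en eta) :=
  contDiff_coeffs (cdp_fpol (φ := fun p : Tup n l × ℂ => slice.comp (shift p.2))
    cdp_slice_shift_X contDiff_fst en eta) _

end FamCD

/-! ### Derivatives of families -/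

section Der

variable {𝕜 : Type*} [NontriviallyNormedField 𝕜] [NormedAlgebra 𝕜 ℂ] {m : ℕ}

/-- coefficientwise derivative -/
def HDP (𝕜 : Type*) [NontriviallyNormedField 𝕜] [NormedAlgebra 𝕜 ℂ] {m : ℕ} (G : 𝕜 → Pol m)
    (G' : Pol m) (t : 𝕜) : Prop :=
  ∀ s, HasDerivAt (fun t => coeff s (G t)) (coeff s G') t

theorem hdp_const (P : Pol m) (t : 𝕜) : HDP 𝕜 (fun _ => P) 0 t := by
  intro s
  rw [coeff_zero]
  exact hasDerivAt_const t _

theorem hdp_C {g : 𝕜 → ℂ} {g' : ℂ} {t : 𝕜} (h : HasDerivAt g g' t) :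
    HDP 𝕜 (fun t => (C (g t) : Pol m)) (C g') t := by
  classical
  intro s
  simp only [coeff_C]
  by_cases hs : 0 = s
  · simp only [if_pos hs]; exact h
  · simp only [if_neg hs]; exact hasDerivAt_const t _

theorem HDP.add {G H : 𝕜 → Pol m} {G' H' : Pol m} {t : 𝕜} (hG : HDP 𝕜 G G' t)
    (hH : HDP 𝕜 H H' t) : HDP 𝕜 (fun t => G t + H t) (G' + H') t := by
  intro s
  simp only [coeff_add]
  exact (hG s).add (hH s)

theorem HDP.sub {G H : 𝕜 → Pol m} {G' H' : Pol m} {t : 𝕜} (hG : HDP 𝕜 G G' t)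
    (hH : HDP 𝕜 H H' t) : HDP 𝕜 (fun t => G t - H t) (G' - H') t := by
  intro s
  simp only [coeff_sub]
  exact (hG s).sub (hH s)

theorem HDP.mul {G H : 𝕜 → Pol m} {G' H' : Pol m} {t : 𝕜} (hG : HDP 𝕜 G G' t)
    (hH : HDP 𝕜 H H' t) : HDP 𝕜 (fun t => G t * H t) (G' * H t + G t * H') t := by
  classical
  intro s
  simp only [coeff_mul, coeff_add]
  rw [← Finset.sum_add_distrib]
  exact HasDerivAt.fun_sum fun x _ => (hG _).mul (hH _)

theorem HDP.congr {G : 𝕜 → Pol m} {G' G'' : Pol m} {t : 𝕜} (hG : HDP 𝕜 G G' t)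
    (h : G' = G'') : HDP 𝕜 G G'' t := h ▸ hG

theorem HDP.eval {G : 𝕜 → Pol m} {G' : Pol m} {t : 𝕜} (hG : HDP 𝕜 G G' t) (D : ℕ) :
    HasDerivAt (fun t => (fun d => coeff (Finsupp.equivFunOnFinite.symm
      (fun i => ((d i : Fin (D + 1)) : ℕ))) (G t) : Cf m D))
      (fun d => coeff (Finsupp.equivFunOnFinite.symm
      (fun i => ((d i : Fin (D + 1)) : ℕ))) G') t :=
  hasDerivAt_pi.2 fun _ => hG _

end Der

section DerShift

variable {n l : ℕ}

theorem hdp_shift (Q : Pol (n + 1)) (z : ℂ) :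
    HDP ℂ (fun z => shift z Q) (shift z (pderiv (Fin.last n) Q)) z := by
  induction Q using MvPolynomial.induction_on with
  | C a =>
    simp only [shift_C, pderiv_C, map_zero]
    exact hdp_const _ _
  | add p q hp hq =>
    simp only [map_add]
    exact hp.add hq
  | mul_X p i hp =>
    have h1 : HDP ℂ (fun z => shift z (X i : Pol (n + 1)))
        (shift z (pderiv (Fin.last n) (X i))) z := by
      refine Fin.lastCases ?_ (fun i => ?_) i
      · simp only [shift_X_last, pderiv_X_self, map_one]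
        exact ((hdp_const _ z).add (hdp_C (hasDerivAt_id z))).congr (by rw [zero_add, C_1])
      · simp only [shift_X_castSucc]
        rw [pderiv_X_of_ne (Fin.castSucc_lt_last i).ne, map_zero]
        exact hdp_const _ _
    have h2 := hp.mul h1
    simp only [map_mul] at h2 ⊢
    refine h2.congr ?_
    rw [pderiv_mul, map_add, map_mul, map_mul]

/-- the `z`-derivative of the family `FV` -/
theorem hasDerivAt_FV (en eta : ℝ) (q : Tup n l) (z : ℂ) :
    HasDerivAt (fun z => FV en eta (q, z)) (fun d => coeff (Finsupp.equivFunOnFinite.symm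
      (fun i => ((d i : Fin (DD l + 1)) : ℕ))) (shift z (pderiv (Fin.last n) (fpol en eta q)))) z :=
  (hdp_shift (fpol en eta q) z).eval _

theorem pol_fderiv_FV {en eta : ℝ} (h1 : en ≠ 0) (h2 : eta ≠ 0) (q : Tup n l) (z : ℂ) :
    pol (fderiv ℂ (FV en eta) (q, z) (0, 1)) = shift z (pderiv (Fin.last n) (fpol en eta q)) := by
  have h3 : HasFDerivAt (FV (n := n) (l := l) en eta) (fderiv ℂ (FV en eta) (q, z)) (q, z) :=
    ((contDiff_FV en eta).differentiable (by simp) _).hasFDerivAt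
  have h4 : HasDerivAt (fun z : ℂ => (q, z)) ((0 : Tup n l), (1 : ℂ)) z :=
    (hasDerivAt_const z q).prodMk (hasDerivAt_id z)
  have h5 := h3.comp_hasDerivAt z h4
  rw [HasDerivAt.unique h5 (hasDerivAt_FV en eta q z)]
  refine pol_coeffs_le ?_
  rw [← pderiv_shift]
  exact ((leZ_of_topF (topF_shift h1 h2 z q)).pderiv _).mono (by linarith)

end DerShift

end Pool.Agent.QC.Loc
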