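import Pool.Agent.QC.Loc.Low

/-!
# Section 2.5: the ideal of the row `(f, theta f)` at a nondegenerate zero
-/

namespace Pool.Agent.QC.Loc

open MvPolynomial Pool.Agent.QC

variable {m : ℕ}

/-- The maximal ideal of the point `w`. -/
noncomputable def mI (w : Fin m → ℂ) : Ideal (Pol m) := RingHom.ker (eval w)

theorem mem_mI {w : Fin m → ℂ} {P : Pol m} : P ∈ mI w ↔ eval w P = 0 := RingHom.mem_ker

theorem X_sub_mem (w : Fin m → ℂ) (j : Fin m) : (X j - C (w j) : Pol m) ∈ mI w := by
  rw [mem_mI]; simp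

/-- first order Taylor formula -/
theorem taylor1 (w : Fin m → ℂ) (P : Pol m) :
    P - C (eval w P) - ∑ j, C (eval w (pderiv j P)) * (X j - C (w j)) ∈ mI w * mI w := by
  induction P using MvPolynomial.induction_on with
  | C a => simp
  | add p q hp hq =>
    have := Ideal.add_mem _ hp hq
    convert this using 1
    simp only [map_add, add_mul, Finset.sum_add_distrib]
    ring
  | mul_X p i hp =>
    have h1 : (p - C (eval w p) - ∑ j, C (eval w (pderiv j p)) * (X j - C (w j))) * X i ∈
        mI w * mI w := Ideal.mul_mem_right _ _ hp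
    have h2 : ∑ j, C (eval w (pderiv j p)) * ((X j - C (w j)) * (X i - C (w i))) ∈
        mI w * mI w :=
      Ideal.sum_mem _ fun j _ => Ideal.mul_mem_left _ _
        (Ideal.mul_mem_mul (X_sub_mem w j) (X_sub_mem w i))
    have h3 := Ideal.add_mem _ h1 h2
    convert h3 using 1
    have h4 : ∑ j, C (eval w (pderiv j (p * X i))) * (X j - C (w j) : Pol m) =
        (∑ j, C (eval w (pderiv j p)) * (X j - C (w j))) * C (w i) +
          C (eval w p) * (X i - C (w i)) := by
      rw [Finset.sum_mul]
      have : ∀ j, C (eval w (pderiv j (p * X i))) * (X j - C (w j) : Pol m) =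
          C (eval w (pderiv j p)) * (X j - C (w j)) * C (w i) +
            C (eval w p) * (if j = i then (X j - C (w j)) else 0) := by
        intro j
        rw [pderiv_mul]
        by_cases hji : j = i
        · subst hji
          rw [pderiv_X_self, if_pos rfl]
          simp only [map_add, map_mul, eval_X, mul_one]
          ring
        · rw [pderiv_X_of_ne (Ne.symm hji), if_neg hji]
          simp only [map_mul, eval_X, mul_zero, add_zero]
          ring
      rw [Finset.sum_congr rfl fun j _ => this j, Finset.sum_add_distrib, ← Finset.mul_sum,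
        Finset.sum_ite_eq' Finset.univ i, if_pos (Finset.mem_univ i)]
    have h5 : ∑ j, C (eval w (pderiv j p)) * ((X j - C (w j)) * (X i - C (w i))) =
        (∑ j, C (eval w (pderiv j p)) * (X j - C (w j))) * (X i - C (w i)) := by
      rw [Finset.sum_mul]
      refine Finset.sum_congr rfl fun j _ => ?_
      rw [mul_assoc]
    rw [h4, h5]
    simp only [map_mul, eval_X]
    ring

/-- The Jacobian matrix of the row `theta f`. -/
noncomputable def jac (e : Fin m → ℕ) (f : Pol m) (w : Fin m → ℂ) : Matrix (Fin m) (Fin m) ℂ :=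
  fun i j => eval w (pderiv j (th e i f))

/-- `w` is the only common zero of `f` and `theta f`, and it is nondegenerate. -/
structure NZ (e : Fin m → ℕ) (f : Pol m) (w : Fin m → ℂ) : Prop where
  f0 : eval w f = 0
  w0 : ∀ i, e i = 1 → w i = 0
  th0 : ∀ i, eval w (th e i f) = 0
  det : (jac e f w).det ≠ 0
  uniq : ∀ v, eval v f = 0 → (∀ i, eval v (th e i f) = 0) → v = w

/-- the ideal of the row `theta f` -/
noncomputable def thI (e : Fin m → ℕ) (f : Pol m) : Ideal (Pol m) :=
  Ideal.span (Set.range fun i => th e i f)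

theorem th_mem_thI (e : Fin m → ℕ) (f : Pol m) (i : Fin m) : th e i f ∈ thI e f :=
  Ideal.subset_span ⟨i, rfl⟩

theorem mI_le (e : Fin m → ℕ) {f : Pol m} {w : Fin m → ℂ} (h0 : ∀ i, eval w (th e i f) = 0)
    (hd : (jac e f w).det ≠ 0) : mI w ≤ thI e f ⊔ mI w * mI w := by
  have hu : IsUnit (jac e f w).det := isUnit_iff_ne_zero.2 hd
  -- the coordinates
  have hX : ∀ j, (X j - C (w j) : Pol m) ∈ thI e f ⊔ mI w * mI w := by
    intro j
    have h1 : ∀ i, ∑ l, C (jac e f w i l) * (X l - C (w l) : Pol m) ∈ thI e f ⊔ mI w * mI w := by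
      intro i
      have h2 := taylor1 w (th e i f)
      rw [h0 i, map_zero, sub_zero] at h2
      have h3 : ∑ l, C (jac e f w i l) * (X l - C (w l) : Pol m) = th e i f -
          (th e i f - ∑ l, C (eval w (pderiv l (th e i f))) * (X l - C (w l))) := by
        rw [sub_sub_cancel]; rfl
      rw [h3]
      exact Ideal.sub_mem _ (Ideal.mem_sup_left (th_mem_thI e f i)) (Ideal.mem_sup_right h2)
    have h4 : (X j - C (w j) : Pol m) =
        ∑ i, C ((jac e f w)⁻¹ j i) * ∑ l, C (jac e f w i l) * (X l - C (w l) : Pol m) := by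
      have h5 : ∀ i, C ((jac e f w)⁻¹ j i) * ∑ l, C (jac e f w i l) * (X l - C (w l) : Pol m) =
          ∑ l, C ((jac e f w)⁻¹ j i * jac e f w i l) * (X l - C (w l) : Pol m) := by
        intro i
        rw [Finset.mul_sum]
        refine Finset.sum_congr rfl fun l _ => ?_
        rw [C_mul, mul_assoc]
      rw [Finset.sum_congr rfl fun i _ => h5 i, Finset.sum_comm]
      have h6 : ∀ l, ∑ i, C ((jac e f w)⁻¹ j i * jac e f w i l) * (X l - C (w l) : Pol m) =
          if l = j then (X l - C (w l) : Pol m) else 0 := by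
        intro l
        rw [← Finset.sum_mul, ← map_sum]
        have : ∑ i, (jac e f w)⁻¹ j i * jac e f w i l = ((jac e f w)⁻¹ * jac e f w) j l := rfl
        rw [this, Matrix.nonsing_inv_mul _ hu, Matrix.one_apply]
        by_cases hjl : l = j
        · rw [if_pos hjl, if_pos hjl.symm, C_1, one_mul]
        · rw [if_neg hjl, if_neg (Ne.symm hjl), C_0, zero_mul]
      rw [Finset.sum_congr rfl fun l _ => h6 l, Finset.sum_ite_eq' Finset.univ j,
        if_pos (Finset.mem_univ j)]
    rw [h4]
    exact Ideal.sum_mem _ fun i _ => Ideal.mul_mem_left _ _ (h1 i)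
  intro P hP
  have h7 := taylor1 w P
  rw [mem_mI.1 hP, map_zero, sub_zero] at h7
  have h8 : P = (P - ∑ j, C (eval w (pderiv j P)) * (X j - C (w j))) +
      ∑ j, C (eval w (pderiv j P)) * (X j - C (w j)) := by ring
  rw [h8]
  exact Ideal.add_mem _ (Ideal.mem_sup_right h7)
    (Ideal.sum_mem _ fun j _ => Ideal.mul_mem_left _ _ (hX j))

/-- Nakayama: there is `χ` with `χ (w) = 1` and `χ m_w ≤ (theta f)`. -/
theorem exists_chi (e : Fin m → ℕ) {f : Pol m} {w : Fin m → ℂ}
    (h0 : ∀ i, eval w (th e i f) = 0) (hd : (jac e f w).det ≠ 0) :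
    ∃ χ : Pol m, eval w χ = 1 ∧ ∀ P ∈ mI w, χ * P ∈ thI e f := by
  have hfg : (mI w).FG := IsNoetherian.noetherian _
  obtain ⟨χ, h1, h2⟩ := Submodule.exists_sub_one_mem_and_smul_le_of_fg_of_le_sup
    (I := mI w) (N := thI e f) (N' := mI w) (P := mI w) hfg le_rfl
    (by simpa [smul_eq_mul] using mI_le e h0 hd)
  refine ⟨χ, ?_, fun P hP => ?_⟩
  · have := mem_mI.1 h1
    rw [map_sub, map_one] at this
    exact sub_eq_zero.1 this
  · exact h2 (Submodule.smul_mem_pointwise_smul P χ _ hP)

theorem thI_le_rowI (e : Fin m → ℕ) (f : Pol m) : thI e f ≤ rowI e f := le_sup_right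

/-- The row `(f, theta f)` generates the maximal ideal of its only (nondegenerate) zero. -/
theorem row_eq {e : Fin m → ℕ} {f : Pol m} {w : Fin m → ℂ} (h : NZ e f w) :
    rowI e f = mI w := by
  refine le_antisymm ?_ ?_
  · refine sup_le ?_ ?_
    · rw [Ideal.span_le, Set.singleton_subset_iff]
      exact mem_mI.2 h.f0
    · rw [Ideal.span_le]
      rintro _ ⟨i, rfl⟩
      exact mem_mI.2 (h.th0 i)
  · obtain ⟨χ, h1, h2⟩ := exists_chi e h.th0 h.det
    have htop : rowI e f ⊔ Ideal.span {χ} = ⊤ := by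
      by_contra hne
      obtain ⟨v, hv⟩ := exists_zero hne
      have hvw : v = w := h.uniq v (hv _ (Ideal.mem_sup_left (f_mem_rowI e f)))
        fun i => hv _ (Ideal.mem_sup_left (th_mem_rowI e f i))
      have h3 := hv χ (Ideal.mem_sup_right (Ideal.mem_span_singleton_self χ))
      rw [hvw, h1] at h3
      exact one_ne_zero h3
    have h1' : (1 : Pol m) ∈ rowI e f ⊔ Ideal.span {χ} := by rw [htop]; exact Submodule.mem_top
    obtain ⟨g, hg, c, hc, hgc⟩ := Submodule.mem_sup.1 h1'
    obtain ⟨s, rfl⟩ := Ideal.mem_span_singleton'.1 hc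
    intro P hP
    have h4 : P = g * P + s * (χ * P) := by
      rw [← mul_assoc, ← add_mul, hgc, one_mul]
    rw [h4]
    exact Ideal.add_mem _ (Ideal.mul_mem_right _ _ hg)
      (Ideal.mul_mem_left _ _ (thI_le_rowI e f (h2 P hP)))

/-- The data `χ f = ∑ P_j theta_j f`, `χ (w) = 1`. -/
theorem exists_data {e : Fin m → ℕ} {f : Pol m} {w : Fin m → ℂ} (h : NZ e f w) :
    ∃ (χ : Pol m) (P : Fin m → Pol m), eval w χ = 1 ∧ χ * f = ∑ j, P j * th e j f := by
  obtain ⟨χ, h1, h2⟩ := exists_chi e h.th0 h.det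
  obtain ⟨P, hP⟩ := (Ideal.mem_span_range_iff_exists_fun).1 (h2 f (mem_mI.2 h.f0))
  exact ⟨χ, P, h1, hP.symm⟩

/-! ### values of the data at `w` -/

section Val

variable {e : Fin m → ℕ} {f : Pol m} {w : Fin m → ℂ}

theorem th_zero_pat {i : Fin m} (hi : e i = 0) (P : Pol m) : th e i P = pderiv i P := by
  rw [th, hi, pow_zero, one_mul]

theorem th_one_pat {i : Fin m} (hi : e i = 1) (P : Pol m) : th e i P = X i * pderiv i P := by
  rw [th, hi, pow_one]

theorem eval_th_one (h : NZ e f w) {i : Fin m} (hi : e i = 1) (P : Pol m) :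
    eval w (th e i P) = 0 := by
  rw [th_one_pat hi, map_mul, eval_X, h.w0 i hi, zero_mul]

theorem jac_zero {i : Fin m} (hi : e i = 0) (j : Fin m) :
    jac e f w i j = eval w (pderiv j (pderiv i f)) := by
  rw [jac, th_zero_pat hi]

theorem jac_one (h : NZ e f w) {i : Fin m} (hi : e i = 1) (j : Fin m) :
    jac e f w i j = if j = i then eval w (pderiv i f) else 0 := by
  rw [jac, th_one_pat hi, pderiv_mul]
  by_cases hji : j = i
  · subst hji
    rw [pderiv_X_self, if_pos rfl]
    simp [h.w0 j hi]
  · rw [pderiv_X_of_ne (Ne.symm hji), if_neg hji]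
    simp [h.w0 i hi]

theorem pat (he : ∀ i, e i ≤ 1) (i : Fin m) : e i = 0 ∨ e i = 1 := by
  have := he i
  omega

/-- `P_j (w) = e_j`. -/
theorem data_val (he : ∀ i, e i ≤ 1) (h : NZ e f w) {χ : Pol m} {P : Fin m → Pol m}
    (h1 : eval w χ = 1) (h2 : χ * f = ∑ j, P j * th e j f) (j : Fin m) :
    eval w (P j) = e j := by
  have h3 : ∀ k, eval w (pderiv k f) = ∑ j, eval w (P j) * jac e f w j k := by
    intro k
    have h4 := congrArg (fun Q => eval w (pderiv k Q)) h2
    simp only [pderiv_mul, map_add, map_mul, h1, h.f0, map_sum, mul_zero, one_mul, zero_add,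
      h.th0] at h4
    exact h4
  have h5 : ∀ k, ∑ j, (e j : ℂ) * jac e f w j k = eval w (pderiv k f) := by
    intro k
    rw [Finset.sum_eq_single k]
    · rcases pat he k with hk | hk
      · have := h.th0 k
        rw [th_zero_pat hk] at this
        rw [hk, this]; simp
      · rw [jac_one h hk, if_pos rfl, hk]; simp
    · intro j _ hjk
      rcases pat he j with hj | hj
      · rw [hj]; simp
      · rw [jac_one h hj, if_neg (Ne.symm hjk), mul_zero]
    · intro hk
      exact absurd (Finset.mem_univ k) hk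
  have h6 : Matrix.vecMul (fun j => eval w (P j) - (e j : ℂ)) (jac e f w) = 0 := by
    funext k
    rw [Matrix.vecMul, dotProduct, Pi.zero_apply]
    have : ∀ j, (eval w (P j) - (e j : ℂ)) * jac e f w j k =
        eval w (P j) * jac e f w j k - (e j : ℂ) * jac e f w j k := fun j => by ring
    rw [Finset.sum_congr rfl fun j _ => this j, Finset.sum_sub_distrib, ← h3, h5, sub_self]
  have h7 := congrFun (Matrix.eq_zero_of_vecMul_eq_zero h.det h6) j
  exact sub_eq_zero.1 h7

/-- The Hessian in the variables of pattern `0`. -/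
noncomputable def hessS (e : Fin m → ℕ) (f : Pol m) (w : Fin m → ℂ) :
    Matrix {i // e i = 0} {i // e i = 0} ℂ :=
  fun k l => eval w (pderiv k.1 (pderiv l.1 f))

theorem sum_S {F : Fin m → ℂ} (hF : ∀ j, e j ≠ 0 → F j = 0) :
    ∑ j, F j = ∑ j : {i // e i = 0}, F j.1 := by
  rw [← Finset.sum_subtype (Finset.univ.filter fun j => e j = 0) (by simp) F, Finset.sum_filter]
  refine Finset.sum_congr rfl fun j _ => ?_
  by_cases hj : e j = 0
  · rw [if_pos hj]
  · rw [if_neg hj, hF j hj]

theorem hessS_det (he : ∀ i, e i ≤ 1) (h : NZ e f w) : (hessS e f w).det ≠ 0 := by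
  intro h0
  obtain ⟨v, hv, hv0⟩ := Matrix.exists_mulVec_eq_zero_iff.2 h0
  apply hv
  set u : Fin m → ℂ := fun j => if hj : e j = 0 then v ⟨j, hj⟩ else 0 with hu
  have huS : ∀ j : {i // e i = 0}, u j.1 = v j := by
    intro j
    rw [hu]
    simp only
    rw [dif_pos j.2]
  have huT : ∀ j, e j ≠ 0 → u j = 0 := by
    intro j hj
    rw [hu]
    simp only
    rw [dif_neg hj]
  have h1 : Matrix.mulVec (jac e f w) u = 0 := by
    funext i
    rw [Matrix.mulVec, dotProduct, Pi.zero_apply]
    rcases pat he i with hi | hi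
    · have h2 := congrFun hv0 ⟨i, hi⟩
      rw [Matrix.mulVec, dotProduct, Pi.zero_apply] at h2
      rw [sum_S (e := e) (fun j hj => by rw [huT j hj, mul_zero]), ← h2]
      refine Finset.sum_congr rfl fun j _ => ?_
      rw [huS, jac_zero hi, hessS, pderiv_comm]
    · refine Finset.sum_eq_zero fun j _ => ?_
      rw [jac_one h hi]
      by_cases hji : j = i
      · subst hji
        rw [huT j (by omega), mul_zero]
      · rw [if_neg hji, zero_mul]
  have h2 := Matrix.eq_zero_of_mulVec_eq_zero h.det h1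
  funext j
  rw [← huS, h2]
  rfl

/-- The trace identity: `∑ theta_j P_j (w) = |S| / 2`. -/
theorem data_trace (he : ∀ i, e i ≤ 1) (h : NZ e f w) {χ : Pol m} {P : Fin m → Pol m}
    (h1 : eval w χ = 1) (h2 : χ * f = ∑ j, P j * th e j f) :
    ∑ j, eval w (th e j (P j)) = (Fintype.card {i // e i = 0} : ℂ) / 2 := by
  set H := hessS e f w with hH
  set B : Matrix {i // e i = 0} {i // e i = 0} ℂ := fun k j => eval w (pderiv k.1 (P j.1)) with hB
  have hHu : IsUnit H.det := isUnit_iff_ne_zero.2 (hessS_det he h)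
  have hHs : H.transpose = H := by
    ext k l
    rw [Matrix.transpose_apply, hH, hessS, hessS, pderiv_comm]
  have hz : ∀ k : {i // e i = 0}, eval w (pderiv k.1 f) = 0 := by
    intro k
    rw [← th_zero_pat k.2]
    exact h.th0 k.1
  -- the second order identity
  have key : H = B * H + (B * H).transpose := by
    ext k l
    have h4 := congrArg (fun Q => eval w (pderiv k.1 (pderiv l.1 Q))) h2
    simp only [pderiv_mul, map_add, map_mul, h1, h.f0, map_sum, mul_zero, one_mul, zero_add,
      h.th0, hz, add_zero, data_val he h h1 h2] at h4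
    rw [Matrix.add_apply, Matrix.transpose_apply, Matrix.mul_apply, Matrix.mul_apply]
    have e1 : H k l = eval w (pderiv k.1 (pderiv l.1 f)) := rfl
    rw [e1, h4, ← Finset.sum_add_distrib, sum_S]
    · refine Finset.sum_congr rfl fun j _ => ?_
      have g1 : ∀ k : {i // e i = 0}, eval w (pderiv k.1 (th e j.1 f)) = H j k := by
        intro k
        rw [th_zero_pat j.2, pderiv_comm]
        rfl
      rw [g1, g1, j.2, Nat.cast_zero, zero_mul, add_zero]
      exact add_comm _ _
    · intro j hj
      have hj1 : e j = 1 := by have := he j; omega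
      have g1 : ∀ k : {i // e i = 0}, pderiv k.1 (th e j f) = X j * pderiv k.1 (pderiv j f) := by
        intro k
        have hkj : j ≠ k.1 := by
          intro hjk
          exact hj (hjk ▸ k.2)
        rw [th_one_pat hj1, pderiv_mul, pderiv_X_of_ne hkj, zero_mul, zero_add]
      have g2 : ∀ k l : {i // e i = 0}, pderiv k.1 (pderiv l.1 (th e j f)) =
          X j * pderiv k.1 (pderiv l.1 (pderiv j f)) := by
        intro k l
        have hkj : j ≠ k.1 := by
          intro hjk
          exact hj (hjk ▸ k.2)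
        rw [g1 l, pderiv_mul, pderiv_X_of_ne hkj, zero_mul, zero_add]
      rw [g2, g1, g1]
      simp only [map_mul, eval_X, h.w0 j hj1, zero_mul, mul_zero, add_zero]
  have h5 : (Fintype.card {i // e i = 0} : ℂ) = 2 * B.trace := by
    have h6 : (H * H⁻¹).trace = (B * H * H⁻¹).trace + ((B * H).transpose * H⁻¹).trace := by
      rw [← Matrix.trace_add, ← add_mul, ← key]
    rw [Matrix.mul_nonsing_inv _ hHu, Matrix.trace_one, mul_assoc, Matrix.mul_nonsing_inv _ hHu,
      mul_one, Matrix.transpose_mul, hHs, mul_assoc, Matrix.trace_mul_comm, mul_assoc,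
      Matrix.nonsing_inv_mul _ hHu, mul_one, Matrix.trace_transpose] at h6
    rw [h6]; ring
  rw [h5, sum_S (e := e) (fun j hj => eval_th_one h (by have := he j; omega) _)]
  rw [Matrix.trace]
  have h7 : ∀ j : {i // e i = 0}, eval w (th e j.1 (P j.1)) = B.diag j := by
    intro j
    rw [th_zero_pat j.2]
    rfl
  rw [Finset.sum_congr rfl fun j _ => h7 j]
  ring

end Val

/-! ### evaluation at `w` as a functional, and the kernel of `mu` -/

/-- evaluation at `w` -/
noncomputable def evL (w : Fin m → ℂ) : Fnl m := (aeval w : Pol m →ₐ[ℂ] ℂ).toLinearMap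

theorem evL_apply (w : Fin m → ℂ) (P : Pol m) : evL w P = eval w P := by
  rw [evL, AlgHom.toLinearMap_apply, aeval_eq_eval]

theorem evL_mem {e : Fin m → ℕ} {f : Pol m} {w : Fin m → ℂ} (h0 : eval w f = 0)
    (hth : ∀ i, eval w (th e i f) = 0) (b : ℂ) : evL w ∈ Zs e b f := by
  intro i P
  rw [evL_apply, Dop, map_add, map_mul, map_mul, map_mul, h0, hth i]
  ring

/-- The functionals of `Zs (a - 1)` killed by `f` are the multiples of the evaluation. -/
theorem ker_mu {e : Fin m → ℕ} {a : ℂ} (ha : a ≠ 0) {f : Pol m} {w : Fin m → ℂ} (h : NZ e f w)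
    {y : Fnl m} (hy : y ∈ Zs e (a - 1) f) (hf : ∀ P, y (f * P) = 0) : y = y 1 • evL w := by
  have hth : ∀ i P, y (th e i f * P) = 0 := by
    intro i P
    have := zs_rel hy i P
    rw [hf, sub_add_cancel] at this
    have h3 : a * y (th e i f * P) = 0 := by linear_combination this
    exact (mul_eq_zero.1 h3).resolve_left ha
  have hI : ∀ P ∈ mI w, y P = 0 := by
    intro P hP
    rw [← row_eq h, mem_rowI] at hP
    obtain ⟨s0, s, rfl⟩ := hP
    rw [map_add, map_sum, mul_comm s0, hf, zero_add]
    refine Finset.sum_eq_zero fun i _ => ?_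
    rw [mul_comm, hth]
  refine LinearMap.ext fun P => ?_
  have h1 := hI (P - C (eval w P)) (by rw [mem_mI]; simp)
  rw [map_sub, sub_eq_zero] at h1
  have h2 : (C (eval w P) : Pol m) = (eval w P) • 1 := by rw [smul_eq_C_mul, mul_one]
  rw [h1, h2, map_smul, LinearMap.smul_apply, evL_apply, smul_eq_mul, smul_eq_mul, mul_comm]

end Pool.Agent.QC.Loc
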