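import Pool.Agent.QC.Defs

/-!
# Section 2.6': the multiplication map `mu` is bijective on regular polynomials

No top form, no dimension count: only the unimodularity of the row `(f, theta_1 f, ..)`.
-/

namespace Pool.Agent.QC.Loc

open MvPolynomial Pool.Agent.QC

variable {m : ℕ} (e : Fin m → ℕ)

theorem th_add (i : Fin m) (P Q : Pol m) : th e i (P + Q) = th e i P + th e i Q := by
  simp [th, mul_add]

theorem th_mul (i : Fin m) (P Q : Pol m) : th e i (P * Q) = th e i P * Q + P * th e i Q := by
  simp only [th, pderiv_mul]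
  ring

theorem th_smul (i : Fin m) (c : ℂ) (P : Pol m) : th e i (c • P) = c • th e i P := by
  simp [th]

theorem th_C (i : Fin m) (c : ℂ) : th e i (C c) = 0 := by
  simp [th]

theorem th_one (i : Fin m) : th e i (1 : Pol m) = 0 := by
  simp [th]

theorem th_zero (i : Fin m) : th e i (0 : Pol m) = 0 := by
  simp [th]

/-- `th e i` as a linear map. -/
noncomputable def thL (i : Fin m) : Pol m →ₗ[ℂ] Pol m where
  toFun := th e i
  map_add' := th_add e i
  map_smul' := by
    intro c P
    simp [th_smul]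

theorem thL_apply (i : Fin m) (P : Pol m) : thL e i P = th e i P := rfl

theorem th_sum {ι : Type*} (s : Finset ι) (i : Fin m) (P : ι → Pol m) :
    th e i (∑ j ∈ s, P j) = ∑ j ∈ s, th e i (P j) :=
  map_sum (thL e i) P s

theorem pderiv_comm (i j : Fin m) (P : Pol m) : pderiv i (pderiv j P) = pderiv j (pderiv i P) := by
  induction P using MvPolynomial.induction_on' with
  | monomial s a =>
    simp only [pderiv_monomial]
    by_cases h : i = j
    · subst h; rfl
    · congr 1
      · rw [tsub_right_comm]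
      · rw [Finsupp.tsub_apply, Finsupp.tsub_apply, Finsupp.single_eq_of_ne (Ne.symm h),
          Finsupp.single_eq_of_ne h]
        simp
        ring
  | add p q hp hq => simp [hp, hq]

theorem th_comm (i j : Fin m) (P : Pol m) : th e i (th e j P) = th e j (th e i P) := by
  by_cases h : i = j
  · subst h; rfl
  · have h1 : pderiv i ((X j : Pol m) ^ e j) = 0 := by
      rw [pderiv_pow, pderiv_X_of_ne (Ne.symm h)]; simp
    have h2 : pderiv j ((X i : Pol m) ^ e i) = 0 := by
      rw [pderiv_pow, pderiv_X_of_ne h]; simp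
    simp only [th, pderiv_mul, h1, h2, pderiv_comm i j P]
    ring

/-- a proper ideal has a common zero -/
theorem exists_zero {I : Ideal (Pol m)} (h : I ≠ ⊤) : ∃ w : Fin m → ℂ, ∀ P ∈ I, eval w P = 0 := by
  obtain ⟨J, hJ, hIJ⟩ := Ideal.exists_le_maximal I h
  obtain ⟨w, hw⟩ := isMaximal_iff_eq_vanishingIdeal_singleton.1 hJ
  refine ⟨w, fun P hP => ?_⟩
  have := hIJ hP
  rw [hw, mem_vanishingIdeal_singleton_iff] at this
  simpa using this

/-- the ideal of the row `(f, theta f)` -/
noncomputable def rowI (f : Pol m) : Ideal (Pol m) :=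
  Ideal.span {f} ⊔ Ideal.span (Set.range fun i => th e i f)

theorem mem_rowI {f P : Pol m} : P ∈ rowI e f ↔
    ∃ (s0 : Pol m) (s : Fin m → Pol m), P = s0 * f + ∑ i, s i * th e i f := by
  unfold rowI
  rw [Submodule.mem_sup]
  constructor
  · rintro ⟨y, hy, z, hz, rfl⟩
    obtain ⟨s0, rfl⟩ := Ideal.mem_span_singleton'.1 hy
    obtain ⟨s, rfl⟩ := (Ideal.mem_span_range_iff_exists_fun).1 hz
    exact ⟨s0, s, rfl⟩
  · rintro ⟨s0, s, rfl⟩
    exact ⟨s0 * f, Ideal.mem_span_singleton'.2 ⟨s0, rfl⟩, _,
      (Ideal.mem_span_range_iff_exists_fun).2 ⟨s, rfl⟩, rfl⟩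

theorem f_mem_rowI (f : Pol m) : f ∈ rowI e f :=
  Ideal.mem_sup_left (Ideal.mem_span_singleton_self f)

theorem th_mem_rowI (f : Pol m) (i : Fin m) : th e i f ∈ rowI e f :=
  Ideal.mem_sup_right (Ideal.subset_span ⟨i, rfl⟩)

/-- the row `(f, theta f)` of a regular polynomial is unimodular -/
theorem reg_unimodular {f : Pol m} (h : Reg e f) :
    ∃ (s0 : Pol m) (s : Fin m → Pol m), (1 : Pol m) = s0 * f + ∑ i, s i * th e i f := by
  rw [← mem_rowI, ← Ideal.eq_top_iff_one]
  by_contra hne
  obtain ⟨w, hw⟩ := exists_zero hne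
  exact h ⟨w, hw _ (f_mem_rowI e f), fun i => hw _ (th_mem_rowI e f i)⟩

variable {e}

/-- the relation of a functional in `Zs` -/
theorem zs_rel {a : ℂ} {f : Pol m} {y : Fnl m} (hy : y ∈ Zs e a f) (i : Fin m) (P : Pol m) :
    y (f * th e i P) = -((a + 1) * y (th e i f * P)) := by
  have h := hy i P
  have h2 : Dop e a f i P = (a + 1) • (th e i f * P) + f * th e i P := by
    rw [Dop, smul_eq_C_mul]; ring
  rw [h2, map_add, map_smul, smul_eq_mul] at h
  linear_combination h

theorem row_split {f : Pol m} {s0 : Pol m} {s : Fin m → Pol m}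
    (hs : (1 : Pol m) = s0 * f + ∑ i, s i * th e i f) (P : Pol m) :
    P = f * (s0 * P) + ∑ i, th e i f * (s i * P) := by
  have h1 : P = (s0 * f + ∑ i, s i * th e i f) * P := by rw [← hs, one_mul]
  have h2 : (s0 * f + ∑ i, s i * th e i f) * P = f * (s0 * P) + ∑ i, th e i f * (s i * P) := by
    rw [add_mul, Finset.sum_mul, mul_comm s0 f, mul_assoc]
    refine congrArg₂ (· + ·) rfl (Finset.sum_congr rfl fun i _ => ?_)
    rw [mul_comm (s i), mul_assoc]
  exact h1.trans h2

/-- explicit construction of the lower functional -/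
noncomputable def lowOf (e : Fin m → ℕ) (a : ℂ) (s0 : Pol m) (s : Fin m → Pol m) (y : Fnl m) :
    Fnl m where
  toFun P := y (s0 * P) - a⁻¹ * ∑ i, y (th e i (s i * P))
  map_add' := by
    intro P Q
    simp only [mul_add, th_add, map_add, Finset.sum_add_distrib]
    ring
  map_smul' := by
    intro c P
    simp only [mul_smul_comm, th_smul, map_smul, smul_eq_mul, RingHom.id_apply,
      ← Finset.mul_sum]
    ring

theorem lowOf_apply (a : ℂ) (s0 : Pol m) (s : Fin m → Pol m) (y : Fnl m) (P : Pol m) :
    lowOf e a s0 s y P = y (s0 * P) - a⁻¹ * ∑ i, y (th e i (s i * P)) := rfl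

theorem lowOf_low {a : ℂ} (ha : a ≠ 0) (ha1 : a + 1 ≠ 0) {f : Pol m} {s0 : Pol m}
    {s : Fin m → Pol m} (hs : (1 : Pol m) = s0 * f + ∑ i, s i * th e i f) {y : Fnl m}
    (hy : y ∈ Zs e a f) : Low e a f y (lowOf e a s0 s y) := by
  -- `y (th_i (f Q)) = - a y (th_i f * Q)`
  have key : ∀ i (Q : Pol m), y (th e i (f * Q)) = -(a * y (th e i f * Q)) := by
    intro i Q
    rw [th_mul, map_add, zs_rel hy i Q]
    ring
  have hf : ∀ P, lowOf e a s0 s y (f * P) = y P := by
    intro P
    have h1 : ∀ i, y (th e i (s i * (f * P))) = -(a * y (th e i f * (s i * P))) := by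
      intro i
      rw [← key, mul_left_comm]
    rw [lowOf_apply, Finset.sum_congr rfl fun i _ => h1 i, Finset.sum_neg_distrib,
      ← Finset.mul_sum]
    have h2 : y P = y (s0 * (f * P)) + ∑ i, y (th e i f * (s i * P)) := by
      rw [← map_sum, ← map_add, show s0 * (f * P) = f * (s0 * P) by ring]
      exact congrArg y (row_split hs P)
    rw [h2]
    field_simp
    ring
  refine ⟨?_, hf⟩
  intro j P
  have h2 : Dop e (a - 1) f j P = a • (th e j f * P) + f * th e j P := by
    rw [Dop, smul_eq_C_mul]; ring_nf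
  rw [h2, map_add, map_smul, smul_eq_mul, hf]
  -- the claim `a low (th_j f P) = - y (th_j P)`
  have h3 : y (th e j P) = -(a * y (th e j f * (s0 * P))) + ∑ i, y (th e j (th e i f * (s i * P))) := by
    rw [← key, ← map_sum, ← map_add, ← th_sum, ← th_add]
    exact congrArg (fun Q => y (th e j Q)) (row_split hs P)
  have h4 : ∀ i, y (th e j (th e i f * (s i * P))) = y (th e i (s i * (th e j f * P))) := by
    intro i
    have e1 : th e j (th e i f * (s i * P)) = th e j (th e i f) * (s i * P) +
        th e i f * th e j (s i * P) := th_mul e j _ _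
    have e2 : th e i (s i * (th e j f * P)) = th e i (th e j f) * (s i * P) +
        th e j f * th e i (s i * P) := by
      rw [show s i * (th e j f * P) = th e j f * (s i * P) by ring]
      exact th_mul e i _ _
    rw [e1, e2, map_add, map_add, th_comm e j i f]
    refine congrArg₂ (· + ·) rfl ?_
    have r1 := zs_rel hy i (th e j (s i * P))
    have r2 := zs_rel hy j (th e i (s i * P))
    rw [th_comm e i j] at r1
    have : (a + 1) * y (th e i f * th e j (s i * P)) = (a + 1) * y (th e j f * th e i (s i * P)) := by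
      linear_combination r1 - r2
    exact mul_left_cancel₀ ha1 this
  rw [h3, Finset.sum_congr rfl fun i _ => h4 i, lowOf_apply,
    show s0 * (th e j f * P) = th e j f * (s0 * P) by ring]
  field_simp
  ring

/-- uniqueness of the lower functional -/
theorem low_unique' {a : ℂ} (ha : a ≠ 0) {f : Pol m} (h : Reg e f) {y y1 y2 : Fnl m}
    (h1 : Low e a f y y1) (h2 : Low e a f y y2) : y1 = y2 := by
  obtain ⟨s0, s, hs⟩ := reg_unimodular e h
  have hz : y1 - y2 ∈ Zs e (a - 1) f := Submodule.sub_mem _ h1.1 h2.1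
  have hf : ∀ P, (y1 - y2) (f * P) = 0 := by
    intro P
    rw [LinearMap.sub_apply, h1.2, h2.2, sub_self]
  have hth : ∀ i P, (y1 - y2) (th e i f * P) = 0 := by
    intro i P
    have := zs_rel hz i P
    rw [hf, sub_add_cancel] at this
    have h3 : a * (y1 - y2) (th e i f * P) = 0 := by linear_combination this
    exact (mul_eq_zero.1 h3).resolve_left ha
  have h0 : ∀ P, (y1 - y2) P = 0 := by
    intro P
    rw [row_split hs P, map_add, map_sum, hf, zero_add]
    exact Finset.sum_eq_zero fun i _ => hth i _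
  exact sub_eq_zero.1 (LinearMap.ext fun P => h0 P)

/-- existence and uniqueness of the lower functional (no condition on the top form) -/
theorem reg_low {f : Pol m} (h : Reg e f) {a : ℂ} (ha : a ≠ 0) (ha1 : a + 1 ≠ 0) {y : Fnl m}
    (hy : y ∈ Zs e a f) : ∃! y' : Fnl m, Low e a f y y' := by
  obtain ⟨s0, s, hs⟩ := reg_unimodular e h
  exact ⟨_, lowOf_low ha ha1 hs hy, fun y' hy' => low_unique' ha h hy' (lowOf_low ha ha1 hs hy)⟩

end Pool.Agent.QC.Loc
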